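import Pool.Agent.W691.Ran.Defs

set_option autoImplicit false

namespace Pool.Agent.W646.RN

open Pool.Agent.W691.Ran

noncomputable section

theorem Wf_abs {m : ℕ} (a : ℕ) (i j : Fin m → Bool) : |Wf a i j| ≤ 1 := by
  unfold Wf
  split_ifs <;> simp

theorem Wf_ne {m : ℕ} {a : ℕ} {i j : Fin m → Bool} (h : Wf a i j ≠ 0) :
    ∀ p : Fin m, (p : ℕ) + 1 < a → i p = j p := by
  unfold Wf at h
  by_contra hcon
  rw [if_neg hcon] at h
  exact h rfl

/-- flip the bit at `p0` -/
def flip {m : ℕ} (p0 : Fin m) (i : Fin m → Bool) : Fin m → Bool := Function.update i p0 (!(i p0))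

theorem flip_flip {m : ℕ} (p0 : Fin m) (i : Fin m → Bool) : flip p0 (flip p0 i) = i := by
  unfold flip
  simp

def flipE {m : ℕ} (p0 : Fin m) : (Fin m → Bool) ≃ (Fin m → Bool) where
  toFun := flip p0
  invFun := flip p0
  left_inv := flip_flip p0
  right_inv := flip_flip p0

theorem flip_ne {m : ℕ} {p0 p : Fin m} (h : p ≠ p0) (i : Fin m → Bool) : flip p0 i p = i p := by
  unfold flip
  rw [Function.update_of_ne h]

theorem flip_self {m : ℕ} {p0 : Fin m} (i : Fin m → Bool) : flip p0 i p0 = !(i p0) := by
  unfold flip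
  rw [Function.update_self]

theorem Wf_flip {m : ℕ} (a : ℕ) (p0 : Fin m) (hp : (p0 : ℕ) + 1 = a) (i j : Fin m → Bool) :
    Wf a (flip p0 i) j = - Wf a i j := by
  have h1 : (∀ p : Fin m, (p : ℕ) + 1 < a → flip p0 i p = j p) ↔
      (∀ p : Fin m, (p : ℕ) + 1 < a → i p = j p) := by
    constructor
    · intro h p hpa
      rw [← h p hpa, flip_ne]
      intro he; subst he; omega
    · intro h p hpa
      rw [← h p hpa, flip_ne]
      intro he; subst he; omega
  have h2 : (∀ p : Fin m, (p : ℕ) + 1 = a → flip p0 i p = j p) ↔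
      ¬ (∀ p : Fin m, (p : ℕ) + 1 = a → i p = j p) := by
    have e : ∀ p : Fin m, (p : ℕ) + 1 = a → p = p0 := by
      intro p hpa
      apply Fin.ext
      omega
    constructor
    · intro h hcon
      have g1 := h p0 hp
      have g2 := hcon p0 hp
      rw [flip_self, g2] at g1
      cases hj : j p0 <;> rw [hj] at g1 <;> simp at g1
    · intro h p hpa
      rw [e p hpa, flip_self]
      by_contra hcon
      apply h
      intro q hqa
      rw [e q hqa]
      cases hi : i p0 <;> cases hj : j p0 <;> rw [hi, hj] at hcon <;> simp at hcon ⊢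
  unfold Wf
  by_cases c1 : ∀ p : Fin m, (p : ℕ) + 1 < a → i p = j p
  · rw [if_pos (h1.mpr c1), if_pos c1]
    by_cases c2 : ∀ p : Fin m, (p : ℕ) + 1 = a → i p = j p
    · rw [if_neg (fun h => h2.mp h c2), if_pos c2]
    · rw [if_pos (h2.mpr c2), if_neg c2, neg_neg]
  · rw [if_neg (fun h => c1 (h1.mp h)), if_neg c1, neg_zero]

theorem Wf_congr {m : ℕ} {b : ℕ} {i i' j : Fin m → Bool}
    (h : ∀ p : Fin m, (p : ℕ) + 1 ≤ b → i p = i' p) : Wf b i j = Wf b i' j := by
  have h1 : (∀ p : Fin m, (p : ℕ) + 1 < b → i p = j p) ↔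
      (∀ p : Fin m, (p : ℕ) + 1 < b → i' p = j p) := by
    constructor
    · intro g p hp
      rw [← h p (by omega), g p hp]
    · intro g p hp
      rw [h p (by omega), g p hp]
  have h2 : (∀ p : Fin m, (p : ℕ) + 1 = b → i p = j p) ↔
      (∀ p : Fin m, (p : ℕ) + 1 = b → i' p = j p) := by
    constructor
    · intro g p hp
      rw [← h p (by omega), g p hp]
    · intro g p hp
      rw [h p (by omega), g p hp]
  unfold Wf
  by_cases c1 : ∀ p : Fin m, (p : ℕ) + 1 < b → i p = j p
  · rw [if_pos c1, if_pos (h1.mp c1)]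
    by_cases c2 : ∀ p : Fin m, (p : ℕ) + 1 = b → i p = j p
    · rw [if_pos c2, if_pos (h2.mp c2)]
    · rw [if_neg c2, if_neg (fun h => c2 (h2.mpr h))]
  · rw [if_neg c1, if_neg (fun h => c1 (h1.mpr h))]

theorem zero_of_pos (m a b : ℕ) (ha : 1 ≤ a) (hab : a + b ≤ m) :
    ∑ i : Fin m → Bool, ∑ j : Fin m → Bool, Wf a i j * Wf b (i ∘ Fin.rev) (j ∘ Fin.rev) = 0 := by
  set p0 : Fin m := ⟨a - 1, by omega⟩ with hp0
  have hp0v : (p0 : ℕ) + 1 = a := by rw [hp0]; simp; omega
  set S := ∑ i : Fin m → Bool, ∑ j : Fin m → Bool,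
    Wf a i j * Wf b (i ∘ Fin.rev) (j ∘ Fin.rev) with hS
  have h1 : S = -S := by
    conv_lhs => rw [hS, ← Equiv.sum_comp (flipE p0)]
    rw [hS, ← Finset.sum_neg_distrib]
    apply Finset.sum_congr rfl
    intro i _
    rw [← Finset.sum_neg_distrib]
    apply Finset.sum_congr rfl
    intro j _
    have e1 : Wf a ((flipE p0) i) j = - Wf a i j := Wf_flip a p0 hp0v i j
    have e2 : Wf b (((flipE p0) i) ∘ Fin.rev) (j ∘ Fin.rev) = Wf b (i ∘ Fin.rev) (j ∘ Fin.rev) := by
      apply Wf_congr
      intro p hp
      change flip p0 i (Fin.rev p) = i (Fin.rev p)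
      apply flip_ne
      intro he
      have := congrArg Fin.val he
      rw [Fin.val_rev] at this
      have hpm := p.2
      omega
    rw [e1, e2]
    ring
  linarith

theorem revE_sum {m : ℕ} (f : (Fin m → Bool) → ℝ) :
    ∑ i : Fin m → Bool, f (i ∘ Fin.rev) = ∑ i : Fin m → Bool, f i := by
  have := Equiv.sum_comp (Equiv.arrowCongr (Fin.revPerm (n := m)) (Equiv.refl Bool)) f
  rw [← this]
  apply Finset.sum_congr rfl
  intro i _
  rfl

theorem count : S_COUNT := by
  intro m a b ha hb
  constructor
  · intro hab h1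
    by_cases ha1 : 1 ≤ a
    · exact zero_of_pos m a b ha1 hab
    · have h2 := zero_of_pos m b a (by omega) (by omega)
      rw [← h2, ← revE_sum]
      apply Finset.sum_congr rfl
      intro i _
      rw [← revE_sum]
      apply Finset.sum_congr rfl
      intro j _
      have e : ∀ i : Fin m → Bool, (i ∘ Fin.rev) ∘ Fin.rev = i := by
        intro i; funext p; simp [Function.comp, Fin.rev_rev]
      rw [e, e, mul_comm]
  · intro hab
    have key : ∀ i : Fin m → Bool,
        ∑ j : Fin m → Bool, |Wf a i j * Wf b (i ∘ Fin.rev) (j ∘ Fin.rev)| ≤ 2 := by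
      intro i
      set T : Finset (Fin m → Bool) := Finset.univ.filter
        (fun j => (∀ p : Fin m, (p : ℕ) + 1 < a → i p = j p) ∧
          (∀ p : Fin m, (p : ℕ) + 1 < b → i (Fin.rev p) = j (Fin.rev p))) with hT
      have h1 : ∑ j : Fin m → Bool, |Wf a i j * Wf b (i ∘ Fin.rev) (j ∘ Fin.rev)|
          ≤ ∑ j : Fin m → Bool, if j ∈ T then (1:ℝ) else 0 := by
        apply Finset.sum_le_sum
        intro j _
        split_ifs with hj
        · rw [abs_mul]
          exact mul_le_one₀ (Wf_abs _ _ _) (abs_nonneg _) (Wf_abs _ _ _)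
        · by_contra hcon
          push Not at hcon
          apply hj
          rw [abs_pos] at hcon
          have c1 := Wf_ne (left_ne_zero_of_mul hcon)
          have c2 := Wf_ne (right_ne_zero_of_mul hcon)
          rw [hT, Finset.mem_filter]
          exact ⟨Finset.mem_univ _, c1, c2⟩
      refine le_trans h1 ?_
      rw [← Finset.sum_filter, Finset.sum_const, nsmul_eq_mul, mul_one]
      have h2 : (Finset.univ.filter (fun j => j ∈ T)).card ≤ 2 := by
        rcases Nat.eq_zero_or_pos m with hm | hm
        · subst hm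
          refine le_trans (Finset.card_le_univ _) ?_
          simp
        · set p0 : Fin m := ⟨min (a - 1) (m - 1), by omega⟩ with hp0
          have : (Finset.univ.filter (fun j => j ∈ T)).card ≤ (Finset.univ : Finset Bool).card := by
            apply Finset.card_le_card_of_injOn (fun j => j p0) (fun _ _ => Finset.mem_univ _)
            intro j hj j' hj' he
            simp only [Finset.coe_filter, Set.mem_ofPred_eq, hT, Finset.mem_filter,
              Finset.mem_univ, true_and] at hj hj'
            simp only at he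
            funext p
            by_cases c1 : (p : ℕ) + 1 < a
            · rw [← hj.1 p c1, ← hj'.1 p c1]
            · by_cases c2 : ((Fin.rev p : Fin m) : ℕ) + 1 < b
              · have g1 := hj.2 (Fin.rev p) c2
                have g2 := hj'.2 (Fin.rev p) c2
                rw [Fin.rev_rev] at g1 g2
                rw [← g1, ← g2]
              · rw [Fin.val_rev] at c2
                have hpm := p.2
                have : p = p0 := by
                  apply Fin.ext
                  rw [hp0]
                  simp only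
                  omega
                rw [this]
                exact he
          simpa using this
      exact_mod_cast h2
    calc |∑ i : Fin m → Bool, ∑ j : Fin m → Bool, Wf a i j * Wf b (i ∘ Fin.rev) (j ∘ Fin.rev)|
        ≤ ∑ i : Fin m → Bool, |∑ j : Fin m → Bool,
            Wf a i j * Wf b (i ∘ Fin.rev) (j ∘ Fin.rev)| := Finset.abs_sum_le_sum_abs _ _
      _ ≤ ∑ i : Fin m → Bool, ∑ j : Fin m → Bool,
            |Wf a i j * Wf b (i ∘ Fin.rev) (j ∘ Fin.rev)| :=
          Finset.sum_le_sum (fun i _ => Finset.abs_sum_le_sum_abs _ _)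
      _ ≤ ∑ i : Fin m → Bool, (2:ℝ) := Finset.sum_le_sum (fun i _ => key i)
      _ = 2 * 2 ^ m := by
          rw [Finset.sum_const, nsmul_eq_mul, Finset.card_univ]
          simp
          ring

end

end Pool.Agent.W646.RN
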