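import Pool.Agent.W691.Ran.Defs

set_option autoImplicit false

namespace Pool.Agent.W646.RN

open Pool.Agent.W691.Ran

noncomputable section

theorem min_le_rpow {k x : ℝ} (hk0 : 0 < k) (hk1 : k < 1) (hx : 0 < x) : min 1 x ≤ x ^ k := by
  rcases le_total x 1 with h | h
  · calc min 1 x ≤ x := min_le_right _ _
      _ = x ^ (1:ℝ) := (Real.rpow_one x).symm
      _ ≤ x ^ k := Real.rpow_le_rpow_of_exponent_ge hx h hk1.le
  · exact le_trans (min_le_left _ _) (Real.one_le_rpow h hk0.le)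

theorem geom_le {r : ℝ} (h0 : 0 ≤ r) (h1 : r < 1) (n : ℕ) :
    ∑ i ∈ Finset.range n, r ^ i ≤ 1 / (1 - r) := by
  have h2 := (summable_geometric_of_lt_one h0 h1).sum_le_tsum (Finset.range n)
    (fun i _ => pow_nonneg h0 i)
  rw [tsum_geometric_of_lt_one h0 h1] at h2
  rw [one_div]
  exact h2

theorem geom_le' {Q : ℝ} (h1 : 1 < Q) (n : ℕ) :
    ∑ i ∈ Finset.range n, Q ^ i ≤ Q ^ n / (Q - 1) := by
  rw [geom_sum_eq h1.ne']
  apply div_le_div_of_nonneg_right _ (by linarith)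
  linarith

theorem sumB {k B : ℝ} (hk0 : 0 < k) (hk1 : k < 1) (hB : 1 ≤ B) (n : ℕ) :
    ∑ b ∈ Finset.range n, ((4:ℝ) ^ k) ^ b * min 1 (B / 4 ^ b) ≤
      ((4:ℝ) ^ k / ((4:ℝ) ^ k - 1) + 1 / (1 - (4:ℝ) ^ (k - 1))) * B ^ k := by
  have hB0 : 0 < B := by linarith
  set Q : ℝ := (4:ℝ) ^ k with hQ
  have hQ1 : 1 < Q := Real.one_lt_rpow (by norm_num) hk0
  have hQ0 : 0 < Q := by linarith
  set r : ℝ := (4:ℝ) ^ (k - 1) with hr
  have hr0 : 0 < r := by positivity
  have hr1 : r < 1 := Real.rpow_lt_one_of_one_lt_of_neg (by norm_num) (by linarith)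
  have hQr : Q = 4 * r := by
    rw [hQ, hr, Real.rpow_sub_one (by norm_num)]
    ring
  obtain ⟨b0, hb1, hb2⟩ := exists_nat_pow_near hB (by norm_num : (1:ℝ) < 4)
  have hf : ∀ b : ℕ, 0 ≤ Q ^ b * min 1 (B / 4 ^ b) := by
    intro b
    positivity
  have s1 : ∑ b ∈ Finset.range n, Q ^ b * min 1 (B / 4 ^ b)
      ≤ ∑ b ∈ Finset.range ((b0 + 1) + n), Q ^ b * min 1 (B / 4 ^ b) := by
    apply Finset.sum_le_sum_of_subset_of_nonneg
    · intro x hx
      rw [Finset.mem_range] at hx ⊢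
      omega
    · intro i _ _
      exact hf i
  refine le_trans s1 ?_
  rw [Finset.sum_range_add, add_mul]
  apply add_le_add
  · have s2 : ∑ b ∈ Finset.range (b0 + 1), Q ^ b * min 1 (B / 4 ^ b)
        ≤ ∑ b ∈ Finset.range (b0 + 1), Q ^ b := by
      apply Finset.sum_le_sum
      intro b _
      exact mul_le_of_le_one_right (by positivity) (min_le_left _ _)
    refine le_trans s2 (le_trans (geom_le' hQ1 (b0 + 1)) ?_)
    have e1 : Q ^ b0 ≤ B ^ k := by
      rw [hQ, Real.rpow_pow_comm (by norm_num : (0:ℝ) ≤ 4)]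
      exact Real.rpow_le_rpow (by positivity) hb1 hk0.le
    have e2 : 0 < Q - 1 := by linarith
    rw [pow_succ, div_mul_eq_mul_div]
    apply div_le_div_of_nonneg_right _ e2.le
    rw [mul_comm]
    exact mul_le_mul_of_nonneg_left e1 hQ0.le
  · have s3 : ∀ i : ℕ, Q ^ (b0 + 1 + i) * min 1 (B / 4 ^ (b0 + 1 + i))
        ≤ (B * r ^ (b0 + 1)) * r ^ i := by
      intro i
      calc Q ^ (b0 + 1 + i) * min 1 (B / 4 ^ (b0 + 1 + i))
          ≤ Q ^ (b0 + 1 + i) * (B / 4 ^ (b0 + 1 + i)) :=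
            mul_le_mul_of_nonneg_left (min_le_right _ _) (by positivity)
        _ = (B * r ^ (b0 + 1)) * r ^ i := by
            rw [hQr, mul_pow, pow_add r (b0 + 1) i]
            field_simp
    refine le_trans (Finset.sum_le_sum (fun i _ => s3 i)) ?_
    rw [← Finset.mul_sum]
    have e3 : B * r ^ (b0 + 1) ≤ B ^ k := by
      have e4 : r ^ (b0 + 1) ≤ B ^ (k - 1) := by
        rw [hr, Real.rpow_pow_comm (by norm_num : (0:ℝ) ≤ 4)]
        exact Real.rpow_le_rpow_of_nonpos hB0 hb2.le (by linarith)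
      calc B * r ^ (b0 + 1) ≤ B * B ^ (k - 1) := mul_le_mul_of_nonneg_left e4 hB0.le
        _ = B ^ k := by
            rw [Real.rpow_sub_one hB0.ne']
            field_simp
    calc B * r ^ (b0 + 1) * ∑ i ∈ Finset.range n, r ^ i
        ≤ B ^ k * (1 / (1 - r)) := by
          apply mul_le_mul e3 (geom_le hr0.le hr1 n)
          · exact Finset.sum_nonneg (fun i _ => by positivity)
          · positivity
      _ = 1 / (1 - r) * B ^ k := by ring

theorem sumA {q : ℝ} (h0 : 0 < q) (h1 : q < 1) (m b : ℕ) :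
    ∑ a ∈ Finset.range (m + 2), (if m < a + b then q ^ a else 0) ≤ q ^ (m + 1 - b) / (1 - q) := by
  have s1 : ∑ a ∈ Finset.range (m + 2), (if m < a + b then q ^ a else 0)
      ≤ ∑ a ∈ Finset.range ((m + 1 - b) + (m + 2)), (if m < a + b then q ^ a else 0) := by
    apply Finset.sum_le_sum_of_subset_of_nonneg
    · intro x hx
      rw [Finset.mem_range] at hx ⊢
      omega
    · intro i _ _
      split_ifs
      · positivity
      · exact le_refl _
  refine le_trans s1 ?_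
  rw [Finset.sum_range_add]
  have e1 : ∑ x ∈ Finset.range (m + 1 - b), (if m < x + b then q ^ x else 0) = 0 := by
    apply Finset.sum_eq_zero
    intro x hx
    rw [Finset.mem_range] at hx
    rw [if_neg (by omega)]
  rw [e1, zero_add]
  calc ∑ x ∈ Finset.range (m + 2), (if m < m + 1 - b + x + b then q ^ (m + 1 - b + x) else 0)
      ≤ ∑ x ∈ Finset.range (m + 2), q ^ (m + 1 - b) * q ^ x := by
        apply Finset.sum_le_sum
        intro x _
        rw [pow_add]
        split_ifs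
        · exact le_refl _
        · positivity
    _ = q ^ (m + 1 - b) * ∑ x ∈ Finset.range (m + 2), q ^ x := by rw [Finset.mul_sum]
    _ ≤ q ^ (m + 1 - b) * (1 / (1 - q)) :=
        mul_le_mul_of_nonneg_left (geom_le h0.le h1 _) (by positivity)
    _ = q ^ (m + 1 - b) / (1 - q) := by ring

theorem geo : S_GEO := by
  intro k hk0 hk1
  set Q : ℝ := (4:ℝ) ^ k with hQ
  have hQ1 : 1 < Q := Real.one_lt_rpow (by norm_num) hk0
  have hQ0 : 0 < Q := by linarith
  set r : ℝ := (4:ℝ) ^ (k - 1) with hr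
  have hr0 : 0 < r := by positivity
  have hr1 : r < 1 := Real.rpow_lt_one_of_one_lt_of_neg (by norm_num) (by linarith)
  set q : ℝ := Q⁻¹ with hq
  have hq0 : 0 < q := by positivity
  have hq1 : q < 1 := inv_lt_one_of_one_lt₀ hQ1
  have g1 : 0 < Q - 1 := by linarith
  have g2 : 0 < 1 - r := by linarith
  have g3 : 0 < 1 - q := by linarith
  refine ⟨(Q / (Q - 1) + 1 / (1 - r)) / (1 - q), by positivity, ?_⟩
  intro m A B hA hB
  have hA0 : 0 < A := by linarith
  have hB0 : 0 < B := by linarith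
  rw [Finset.sum_comm]
  have step : ∀ b ∈ Finset.range (m + 2), ∑ a ∈ Finset.range (m + 2),
      (if m < a + b then min 1 (A / 4 ^ a) * min 1 (B / 4 ^ b) else 0)
      ≤ (A ^ k * q ^ (m + 1) / (1 - q)) * (Q ^ b * min 1 (B / 4 ^ b)) := by
    intro b hb
    rw [Finset.mem_range] at hb
    have e1 : ∀ a : ℕ, (if m < a + b then min 1 (A / 4 ^ a) * min 1 (B / 4 ^ b) else 0)
        ≤ (A ^ k * min 1 (B / 4 ^ b)) * (if m < a + b then q ^ a else 0) := by
      intro a
      split_ifs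
      · have e2 : min 1 (A / 4 ^ a) ≤ A ^ k * q ^ a := by
          refine le_trans (min_le_rpow hk0 hk1 (by positivity)) (le_of_eq ?_)
          rw [Real.div_rpow hA0.le (by positivity), hq, hQ, inv_pow,
            Real.rpow_pow_comm (by norm_num : (0:ℝ) ≤ 4)]
          rfl
        calc min 1 (A / 4 ^ a) * min 1 (B / 4 ^ b) ≤ (A ^ k * q ^ a) * min 1 (B / 4 ^ b) :=
              mul_le_mul_of_nonneg_right e2 (by positivity)
          _ = _ := by ring
      · simp
    refine le_trans (Finset.sum_le_sum (fun a _ => e1 a)) ?_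
    rw [← Finset.mul_sum]
    refine le_trans (mul_le_mul_of_nonneg_left (sumA hq0 hq1 m b) (by positivity)) ?_
    apply le_of_eq
    have e3 : q ^ (m + 1 - b) = q ^ (m + 1) * Q ^ b := by
      have : q ^ (m + 1) = q ^ (m + 1 - b) * q ^ b := by rw [← pow_add]; congr 1; omega
      rw [this, hq, inv_pow, inv_pow]
      field_simp
    rw [e3]
    ring
  refine le_trans (Finset.sum_le_sum step) ?_
  rw [← Finset.mul_sum]
  refine le_trans (mul_le_mul_of_nonneg_left (sumB hk0 hk1 hB (m + 2)) (by positivity)) ?_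
  rw [← hQ, ← hr]
  have e4 : (A * B / 4 ^ m) ^ k = A ^ k * B ^ k * q ^ m := by
    rw [Real.div_rpow (by positivity) (by positivity), Real.mul_rpow hA0.le hB0.le, hq, hQ, inv_pow,
      Real.rpow_pow_comm (by norm_num : (0:ℝ) ≤ 4)]
    rfl
  rw [e4]
  have e5 : q ^ (m + 1) ≤ q ^ m := pow_le_pow_of_le_one hq0.le hq1.le (by omega)
  have e6 : 0 ≤ (Q / (Q - 1) + 1 / (1 - r)) / (1 - q) * (A ^ k * B ^ k) := by positivity
  calc A ^ k * q ^ (m + 1) / (1 - q) * ((Q / (Q - 1) + 1 / (1 - r)) * B ^ k)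
      = ((Q / (Q - 1) + 1 / (1 - r)) / (1 - q) * (A ^ k * B ^ k)) * q ^ (m + 1) := by ring
    _ ≤ ((Q / (Q - 1) + 1 / (1 - r)) / (1 - q) * (A ^ k * B ^ k)) * q ^ m :=
        mul_le_mul_of_nonneg_left e5 e6
    _ = (Q / (Q - 1) + 1 / (1 - r)) / (1 - q) * (A ^ k * B ^ k * q ^ m) := by ring

end

end Pool.Agent.W646.RN
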